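import Pool.Agent.Q139.Bz.Right2
import Pool.Agent.Q139.Bz.Refl

/-!
# MP_59b97c_co : tiling benzels by right stones and bones

For all integers `a, b` with `2 ≤ a ≤ 2 b`, `2 ≤ b ≤ 2 a` and Conway-Lagarias invariant
`I(a, b) ≥ 0`, the `(a, b)`-benzel has a type 103 tiling, that is, a tiling by right stones and
bones (all three kinds of bones allowed).
-/

namespace Pool.Agent.Results.MP_59b97c_co.RightStonesBones

open Pool.Agent.Q162.Benzel Pool.Agent.Q139.Bz

/-- The invariant `I(a, b)` of the problem statement (all divisions by two are exact). -/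
def I (a b : ℤ) : ℤ :=
  if (a + b) % 3 = 0 then (3 * a ^ 2 - 6 * a * b + 3 * b ^ 2 - a - b) / 2
  else if (a + b) % 3 = 1 then (-a ^ 2 + 4 * a * b - b ^ 2 - a - b + 2) / 2
  else (3 * a ^ 2 - 6 * a * b + 3 * b ^ 2 + a + b - 2) / 2

theorem key {a b : ℤ} (h0 : (a + b) % 3 = 0) (hI : 0 ≤ I a b) : a + b ≤ 3 * (a - b) ^ 2 := by
  unfold I at hI
  rw [if_pos h0] at hI
  have e1 : 3 * a ^ 2 - 6 * a * b + 3 * b ^ 2 - a - b = 3 * (a - b) ^ 2 - (a + b) := by ring
  rw [e1] at hI
  omega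

theorem of_le (a b : ℤ) (ha : 2 ≤ a) (hab : a ≤ 2 * b) (h : b ≤ a)
    (h0 : (a + b) % 3 = 0 → a + b ≤ 3 * (a - b) ^ 2) : Tileable Proto103 (benzel a b) := by
  have hp : ∀ n T, IsBone n T → Proto103 T := fun n T h => Or.inr ⟨n, h⟩
  have hs : ∀ T, IsRightStone T → Proto103 T := fun T h => Or.inl h
  have h3 : (a + b) % 3 = 0 ∨ (a + b) % 3 = 1 ∨ (a + b) % 3 = 2 := by omega
  rcases h3 with h3 | h3 | h3
  · exact benzel_zeroR hp hs a b h3 h ha hab (h0 h3)
  · exact benzel_one hs a b h3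
  · exact benzel_two hp hs a b h3 h ha hab

theorem result (a b : ℤ) (ha : 2 ≤ a) (hab : a ≤ 2 * b) (hb : 2 ≤ b) (hba : b ≤ 2 * a)
    (hI : 0 ≤ I a b) : ∃ P : Finset (Finset Cell), IsTiling Proto103 (benzel a b) P := by
  have h0 : (a + b) % 3 = 0 → a + b ≤ 3 * (a - b) ^ 2 := fun h => key h hI
  rcases le_total b a with h | h
  · exact of_le a b ha hab h h0
  · have h2 : Tileable Proto103 (benzel b a) := by
      apply of_le b a hb hba h
      intro h3
      have h4 := h0 (by omega)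
      have : (b - a) ^ 2 = (a - b) ^ 2 := by ring
      rw [this]
      linarith
    refine tileable_map refl ?_ (fun c => ?_) h2
    · rintro T (hT | ⟨i, hT⟩)
      · exact Or.inl (refl_rightStone T hT)
      · obtain ⟨j, hj⟩ := refl_bone i T hT
        exact Or.inr ⟨j, hj⟩
    · exact refl_benzel a b c

end Pool.Agent.Results.MP_59b97c_co.RightStonesBones
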